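import Mathlib

/-!
# A covering lemma (used for MP_8119db_co)

If every point of a finite set `D` lies in at least `m ≥ 1` members of a finite family `Y`, then
`D` is covered by `r` members of the family with `r ^ 2 * m ≤ |D| * |Y|`.
-/

set_option autoImplicit false

open scoped Classical

namespace Pool.Agent.H62.WN

section cover

variable {α ι : Type} (A : ι → Finset α) (Y : Finset ι)

/-- double counting with weights -/
theorem dc (D : Finset α) (w : α → ℕ) :
    ∑ u ∈ D, w u * (Y.filter (fun y => u ∈ A y)).card =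
      ∑ y ∈ Y, ∑ u ∈ D.filter (fun u => u ∈ A y), w u := by
  simp only [Finset.card_filter, Finset.mul_sum, Finset.sum_filter]
  rw [Finset.sum_comm]
  refine Finset.sum_congr rfl fun y _ => Finset.sum_congr rfl fun u _ => ?_
  split_ifs <;> simp

/-- the case in which all traces have at most two elements -/
theorem graphCase (m : ℕ) (hm : 1 ≤ m) (D : Finset α)
    (hD : ∀ u ∈ D, m ≤ (Y.filter (fun y => u ∈ A y)).card)
    (h2 : ∀ y ∈ Y, (D.filter (fun u => u ∈ A y)).card ≤ 2) :
    ∃ C ⊆ Y, (∀ u ∈ D, ∃ y ∈ C, u ∈ A y) ∧ C.card ≤ D.card ∧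
      3 * m * C.card ≤ 2 * Y.card + m * D.card := by
  rcases D.eq_empty_or_nonempty with rfl | ⟨x0, hx0⟩
  · exact ⟨∅, Finset.empty_subset _, by simp, by simp, by simp⟩
  have hex : ∀ u ∈ D, ∃ y ∈ Y, u ∈ A y := by
    intro u hu
    have h1 : 0 < (Y.filter (fun y => u ∈ A y)).card := by have := hD u hu; omega
    obtain ⟨y, hy⟩ := Finset.card_pos.1 h1
    rw [Finset.mem_filter] at hy
    exact ⟨y, hy.1, hy.2⟩
  have hne : Nonempty ι := ⟨(hex x0 hx0).choose⟩
  have hneα : Nonempty α := ⟨x0⟩
  -- choose an assignment with the smallest image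
  have hex2 : ∃ f : α → ι, ∀ u ∈ D, f u ∈ Y ∧ u ∈ A (f u) := by
    have h : ∀ u, ∃ y, u ∈ D → y ∈ Y ∧ u ∈ A y := by
      intro u
      by_cases hu : u ∈ D
      · obtain ⟨y, h1, h2⟩ := hex u hu
        exact ⟨y, fun _ => ⟨h1, h2⟩⟩
      · exact ⟨Classical.arbitrary ι, fun h => absurd h hu⟩
    choose f hf using h
    exact ⟨f, hf⟩
  obtain ⟨f, hf, hmin⟩ : ∃ f : α → ι, (∀ u ∈ D, f u ∈ Y ∧ u ∈ A (f u)) ∧
      ∀ g : α → ι, (∀ u ∈ D, g u ∈ Y ∧ u ∈ A (g u)) → (D.image f).card ≤ (D.image g).card := by
    have hP : ∃ n, ∃ f : α → ι, (∀ u ∈ D, f u ∈ Y ∧ u ∈ A (f u)) ∧ (D.image f).card = n := by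
      obtain ⟨f, hf⟩ := hex2
      exact ⟨_, f, hf, rfl⟩
    obtain ⟨f, hf, hc⟩ := Nat.find_spec hP
    refine ⟨f, hf, fun g hg => ?_⟩
    rw [hc]
    exact Nat.find_min' hP ⟨g, hg, rfl⟩
  set Sg : α → Prop := fun u => u ∈ D ∧ ∀ x ∈ D, f x = f u → x = u with hSg
  set Ad : α → α → Prop := fun x u => ∃ y ∈ Y, x ∈ A y ∧ u ∈ A y with hAd
  set Tc : α → Prop := fun x => ∃ u, Sg u ∧ Ad x u with hTc
  set Bt : α → Prop := fun u => ∃ p ∈ D, ∃ q ∈ D, p ≠ q ∧ f p = f q ∧ Ad p u ∧ Ad q u with hBt
  -- three distinct points are in no common set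
  have hthree : ∀ y ∈ Y, ∀ a ∈ D, ∀ b ∈ D, ∀ c ∈ D, a ≠ b → a ≠ c → b ≠ c →
      a ∈ A y → b ∈ A y → c ∈ A y → False := by
    intro y hy a ha b hb c hc hab hac hbc h1 h3 h4
    have hsub : ({a, b, c} : Finset α) ⊆ D.filter (fun u => u ∈ A y) := by
      intro x hx
      simp only [Finset.mem_insert, Finset.mem_singleton] at hx
      rw [Finset.mem_filter]
      rcases hx with rfl | rfl | rfl
      · exact ⟨ha, h1⟩
      · exact ⟨hb, h3⟩
      · exact ⟨hc, h4⟩
    have hcard : ({a, b, c} : Finset α).card = 3 := Finset.card_eq_three.2 ⟨a, b, c, hab, hac, hbc, rfl⟩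
    have := Finset.card_le_card hsub
    have := h2 y hy
    omega
  have hpair : ∀ p ∈ D, ∀ q ∈ D, p ≠ q → f p = f q → ∀ x ∈ D, f x = f p → x = p ∨ x = q := by
    intro p hp q hq hpq hfpq x hx hfx
    by_contra hcon
    push Not at hcon
    refine hthree (f p) (hf p hp).1 p hp q hq x hx hpq (Ne.symm hcon.1) (Ne.symm hcon.2)
      (hf p hp).2 ?_ ?_
    · rw [hfpq]; exact (hf q hq).2
    · rw [← hfx]; exact (hf x hx).2
  -- no set contains two singles
  have hI : ∀ u u', Sg u → Sg u' → Ad u u' → u = u' := by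
    rintro u u' ⟨hu, hu2⟩ ⟨hu', hu2'⟩ ⟨y, hy, h1, h3⟩
    by_contra hne
    have hfne : f u ≠ f u' := fun h => hne (hu2' u hu h)
    set g : α → ι := fun x => if x = u ∨ x = u' then y else f x with hg
    have hgP : ∀ x ∈ D, g x ∈ Y ∧ x ∈ A (g x) := by
      intro x hx
      by_cases h : x = u ∨ x = u'
      · rw [hg]; simp only [if_pos h]
        refine ⟨hy, ?_⟩
        rcases h with rfl | rfl
        · exact h1
        · exact h3
      · rw [hg]; simp only [if_neg h]
        exact hf x hx
    have hsub : D.image g ⊆ insert y (((D.image f).erase (f u)).erase (f u')) := by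
      intro z hz
      obtain ⟨x, hx, rfl⟩ := Finset.mem_image.1 hz
      by_cases h : x = u ∨ x = u'
      · rw [hg]; simp only [if_pos h]
        exact Finset.mem_insert_self _ _
      · rw [hg]; simp only [if_neg h]
        push Not at h
        refine Finset.mem_insert_of_mem (Finset.mem_erase.2 ⟨fun h4 => h.2 (hu2' x hx h4),
          Finset.mem_erase.2 ⟨fun h4 => h.1 (hu2 x hx h4), Finset.mem_image_of_mem f hx⟩⟩)
    have hc := Finset.card_le_card hsub
    have hc2 := Finset.card_insert_le y (((D.image f).erase (f u)).erase (f u'))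
    have e1 : ((D.image f).erase (f u)).card = (D.image f).card - 1 :=
      Finset.card_erase_of_mem (Finset.mem_image_of_mem f hu)
    have e2 : (((D.image f).erase (f u)).erase (f u')).card = ((D.image f).erase (f u)).card - 1 :=
      Finset.card_erase_of_mem (Finset.mem_erase.2 ⟨Ne.symm hfne, Finset.mem_image_of_mem f hu'⟩)
    have e3 : 0 < ((D.image f).erase (f u)).card :=
      Finset.card_pos.2 ⟨f u', Finset.mem_erase.2 ⟨Ne.symm hfne, Finset.mem_image_of_mem f hu'⟩⟩
    have := hmin g hgP
    omega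
  -- no augmenting path of length three
  have hII : ∀ p ∈ D, ∀ q ∈ D, p ≠ q → f p = f q → ∀ u u', Sg u → Sg u' → Ad p u → Ad q u' →
      u = u' := by
    rintro p hp q hq hpq hfpq u u' ⟨hu, hu2⟩ ⟨hu', hu2'⟩ ⟨y, hy, h1, h3⟩ ⟨y', hy', h1', h3'⟩
    by_contra hne
    have hfne : f u ≠ f u' := fun h => hne (hu2' u hu h)
    have hpu : p ≠ u := by
      rintro rfl
      exact hpq (hu2 q hq hfpq.symm).symm
    have hpu' : p ≠ u' := by
      rintro rfl
      exact hpq (hu2' q hq hfpq.symm).symm
    have hqu : q ≠ u := by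
      rintro rfl
      exact hpq (hu2 p hp hfpq)
    have hqu' : q ≠ u' := by
      rintro rfl
      exact hpq (hu2' p hp hfpq)
    have hfpu : f p ≠ f u := fun h => hpu (hu2 p hp h)
    have hfpu' : f p ≠ f u' := fun h => hpu' (hu2' p hp h)
    set g : α → ι := fun x => if x = u ∨ x = p then y else if x = u' ∨ x = q then y' else f x
      with hg
    have hgP : ∀ x ∈ D, g x ∈ Y ∧ x ∈ A (g x) := by
      intro x hx
      by_cases h : x = u ∨ x = p
      · rw [hg]; simp only [if_pos h]
        refine ⟨hy, ?_⟩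
        rcases h with rfl | rfl
        · exact h3
        · exact h1
      · by_cases h' : x = u' ∨ x = q
        · rw [hg]; simp only [if_neg h, if_pos h']
          refine ⟨hy', ?_⟩
          rcases h' with rfl | rfl
          · exact h3'
          · exact h1'
        · rw [hg]; simp only [if_neg h, if_neg h']
          exact hf x hx
    have hsub : D.image g ⊆
        insert y (insert y' ((((D.image f).erase (f u)).erase (f u')).erase (f p))) := by
      intro z hz
      obtain ⟨x, hx, rfl⟩ := Finset.mem_image.1 hz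
      by_cases h : x = u ∨ x = p
      · rw [hg]; simp only [if_pos h]
        exact Finset.mem_insert_self _ _
      · by_cases h' : x = u' ∨ x = q
        · rw [hg]; simp only [if_neg h, if_pos h']
          exact Finset.mem_insert_of_mem (Finset.mem_insert_self _ _)
        · rw [hg]; simp only [if_neg h, if_neg h']
          push Not at h h'
          refine Finset.mem_insert_of_mem (Finset.mem_insert_of_mem (Finset.mem_erase.2
            ⟨fun h4 => ?_, Finset.mem_erase.2 ⟨fun h4 => h'.1 (hu2' x hx h4),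
            Finset.mem_erase.2 ⟨fun h4 => h.1 (hu2 x hx h4), Finset.mem_image_of_mem f hx⟩⟩⟩))
          rcases hpair p hp q hq hpq hfpq x hx h4 with h5 | h5
          · exact h.2 h5
          · exact h'.2 h5
    have hc := Finset.card_le_card hsub
    have hc2 := Finset.card_insert_le y
      (insert y' ((((D.image f).erase (f u)).erase (f u')).erase (f p)))
    have hc3 := Finset.card_insert_le y' ((((D.image f).erase (f u)).erase (f u')).erase (f p))
    have m1 : f u' ∈ (D.image f).erase (f u) :=
      Finset.mem_erase.2 ⟨Ne.symm hfne, Finset.mem_image_of_mem f hu'⟩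
    have m2 : f p ∈ ((D.image f).erase (f u)).erase (f u') :=
      Finset.mem_erase.2 ⟨hfpu', Finset.mem_erase.2 ⟨hfpu, Finset.mem_image_of_mem f hp⟩⟩
    have e1 : ((D.image f).erase (f u)).card + 1 = (D.image f).card :=
      Finset.card_erase_add_one (Finset.mem_image_of_mem f hu)
    have e2 : (((D.image f).erase (f u)).erase (f u')).card + 1 = ((D.image f).erase (f u)).card :=
      Finset.card_erase_add_one m1
    have e3 : ((((D.image f).erase (f u)).erase (f u')).erase (f p)).card + 1 =
      (((D.image f).erase (f u)).erase (f u')).card := Finset.card_erase_add_one m2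
    have := hmin g hgP
    omega
  -- weights
  set w : α → ℕ := fun x => if Sg x then (if Bt x then 1 else 2)
    else (if Tc x ∧ ∀ q ∈ D, q ≠ x → f q = f x → ¬ Tc q then 0 else 1) with hw
  have hw2 : ∀ x, w x ≤ 2 := by
    intro x
    rw [hw]; dsimp only
    split_ifs <;> omega
  have hw1 : ∀ x, ¬ Sg x → w x ≤ 1 := by
    intro x hx
    rw [hw]; dsimp only
    rw [if_neg hx]
    split_ifs <;> omega
  have hns : ∀ x ∈ D, ¬ Sg x → ∃ q ∈ D, q ≠ x ∧ f q = f x := by
    intro x hx h
    by_contra hcon
    push Not at hcon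
    apply h
    refine ⟨hx, fun q hq hfq => ?_⟩
    by_contra hne
    exact hcon q hq hne hfq
  -- a single and a matched point in a common set
  have hmix : ∀ x ∈ D, ∀ u, Sg u → ¬ Sg x → Ad x u → w u + w x ≤ 2 := by
    intro x hx u hu hxs had
    by_cases hB : Bt u
    · have h1 : w u = 1 := by
        rw [hw]; dsimp only
        rw [if_pos hu, if_pos hB]
      have := hw1 x hxs
      omega
    · have h1 : w x = 0 := by
        rw [hw]; dsimp only
        rw [if_neg hxs, if_pos]
        refine ⟨⟨u, hu, had⟩, ?_⟩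
        rintro q hq hqx hfq ⟨u', hu', hqu'⟩
        have h3 := hII x hx q hq (Ne.symm hqx) hfq.symm u u' hu hu' had hqu'
        subst h3
        exact hB ⟨x, hx, q, hq, Ne.symm hqx, hfq.symm, had, hqu'⟩
      have := hw2 u
      omega
  have hadsymm : ∀ a b, Ad a b → Ad b a := by
    rintro a b ⟨y, hy, h1, h3⟩
    exact ⟨y, hy, h3, h1⟩
  have hset : ∀ y ∈ Y, ∑ u ∈ D.filter (fun u => u ∈ A y), w u ≤ 2 := by
    intro y hy
    have hc := h2 y hy
    rcases Nat.lt_or_ge (D.filter (fun u => u ∈ A y)).card 2 with h | h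
    · have h3 : (D.filter (fun u => u ∈ A y)).card ≤ 1 := by omega
      rcases Finset.card_le_one_iff_subset_singleton.1 h3 with ⟨a, ha⟩
      calc ∑ u ∈ D.filter (fun u => u ∈ A y), w u ≤ ∑ u ∈ ({a} : Finset α), w u :=
            Finset.sum_le_sum_of_subset ha
        _ ≤ 2 := by rw [Finset.sum_singleton]; exact hw2 a
    · have h3 : (D.filter (fun u => u ∈ A y)).card = 2 := by omega
      obtain ⟨a, b, hab, hs⟩ := Finset.card_eq_two.1 h3
      have ha : a ∈ D.filter (fun u => u ∈ A y) := by rw [hs]; simp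
      have hb : b ∈ D.filter (fun u => u ∈ A y) := by rw [hs]; simp
      rw [Finset.mem_filter] at ha hb
      rw [hs, Finset.sum_pair hab]
      have had : Ad a b := ⟨y, hy, ha.2, hb.2⟩
      by_cases hsa : Sg a
      · by_cases hsb : Sg b
        · exact absurd (hI a b hsa hsb had) hab
        · exact hmix b hb.1 a hsa hsb (hadsymm _ _ had)
      · by_cases hsb : Sg b
        · rw [add_comm]
          exact hmix a ha.1 b hsb hsa had
        · have := hw1 a hsa
          have := hw1 b hsb
          omega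
  have hupper : m * ∑ u ∈ D, w u ≤ 2 * Y.card := by
    calc m * ∑ u ∈ D, w u = ∑ u ∈ D, w u * m := by
          rw [Finset.mul_sum]; exact Finset.sum_congr rfl fun _ _ => mul_comm _ _
      _ ≤ ∑ u ∈ D, w u * (Y.filter (fun y => u ∈ A y)).card :=
          Finset.sum_le_sum fun u hu => Nat.mul_le_mul_left _ (hD u hu)
      _ = ∑ y ∈ Y, ∑ u ∈ D.filter (fun u => u ∈ A y), w u := dc A Y D w
      _ ≤ ∑ y ∈ Y, 2 := Finset.sum_le_sum hset
      _ = 2 * Y.card := by rw [Finset.sum_const, smul_eq_mul, mul_comm]
  -- lower bound for the total weight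
  set C := D.image f with hC
  set U1 := D.filter (fun u => Sg u ∧ Bt u) with hU1
  set Sur := C.filter (fun y => ∃ p ∈ D, ∃ q ∈ D, p ≠ q ∧ f p = y ∧ f q = y ∧ Tc p ∧ Tc q)
    with hSur
  have hUS : (U1.image f).card ≤ Sur.card := by
    refine le_trans Finset.card_image_le ?_
    have hch : ∀ u : α, ∃ p : α, u ∈ U1 → p ∈ D ∧ ∃ q ∈ D, p ≠ q ∧ f p = f q ∧ Ad p u ∧ Ad q u := by
      intro u
      by_cases hu : u ∈ U1
      · rw [hU1, Finset.mem_filter] at hu
        obtain ⟨p, hp, q, hq, h⟩ := hu.2.2
        exact ⟨p, fun _ => ⟨hp, q, hq, h⟩⟩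
      · exact ⟨u, fun h => absurd h hu⟩
    choose ph hph using hch
    refine Finset.card_le_card_of_injOn (fun u => f (ph u)) ?_ ?_
    · intro u hu
      obtain ⟨hp, q, hq, hpq, hfpq, h1, h3⟩ := hph u hu
      have hu' : Sg u := by
        rw [Finset.mem_coe, hU1, Finset.mem_filter] at hu
        exact hu.2.1
      rw [Finset.mem_coe, hSur, Finset.mem_filter]
      exact ⟨Finset.mem_image_of_mem f hp, ph u, hp, q, hq, hpq, rfl, hfpq.symm,
        ⟨u, hu', h1⟩, ⟨u, hu', h3⟩⟩
    · intro u hu u' hu' heq
      have heq' : f (ph u) = f (ph u') := heq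
      obtain ⟨hp, q, hq, hpq, hfpq, h1, h3⟩ := hph u hu
      obtain ⟨hp', q', hq', hpq', hfpq', h1', h3'⟩ := hph u' hu'
      have hsu : Sg u := by
        rw [Finset.mem_coe, hU1, Finset.mem_filter] at hu
        exact hu.2.1
      have hsu' : Sg u' := by
        rw [Finset.mem_coe, hU1, Finset.mem_filter] at hu'
        exact hu'.2.1
      have h5 := hpair (ph u) hp q hq hpq hfpq (ph u') hp' heq'.symm
      rcases h5 with h5 | h5
      · rw [h5] at h1'
        exact (hII _ hp q hq hpq hfpq u' u hsu' hsu h1' h3).symm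
      · rw [h5] at h1'
        exact hII _ hp q hq hpq hfpq u u' hsu hsu' h1 h1'
  have hval : ∀ y ∈ C, 3 + (if y ∈ Sur then 1 else 0) ≤
      (∑ x ∈ D.filter (fun x => f x = y), w x) + (D.filter (fun x => f x = y)).card +
        (if y ∈ U1.image f then 1 else 0) := by
    intro y hy
    obtain ⟨x, hx, rfl⟩ := Finset.mem_image.1 hy
    by_cases hs : Sg x
    · have hfil : D.filter (fun z => f z = f x) = {x} := by
        ext z
        rw [Finset.mem_filter, Finset.mem_singleton]
        exact ⟨fun h => hs.2 z h.1 h.2, fun h => by rw [h]; exact ⟨hx, rfl⟩⟩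
      have hnS : f x ∉ Sur := by
        rw [hSur, Finset.mem_filter]
        rintro ⟨-, p, hp, q, hq, hpq, h1, h3, -⟩
        exact hpq ((hs.2 p hp h1).trans (hs.2 q hq h3).symm)
      rw [hfil, Finset.sum_singleton, Finset.card_singleton, if_neg hnS]
      by_cases hB : Bt x
      · have hxU : f x ∈ U1.image f :=
          Finset.mem_image_of_mem f (by rw [hU1, Finset.mem_filter]; exact ⟨hx, hs, hB⟩)
        have h1 : w x = 1 := by
          rw [hw]; dsimp only
          rw [if_pos hs, if_pos hB]
        rw [if_pos hxU, h1]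
      · have h1 : w x = 2 := by
          rw [hw]; dsimp only
          rw [if_pos hs, if_neg hB]
        rw [h1]
        omega
    · obtain ⟨q, hq, hqx, hfq⟩ := hns x hx hs
      have hqs : ¬ Sg q := fun h => hqx (h.2 x hx hfq.symm).symm
      have hfil : D.filter (fun z => f z = f x) = {x, q} := by
        ext z
        rw [Finset.mem_filter, Finset.mem_insert, Finset.mem_singleton]
        constructor
        · rintro ⟨h1, h3⟩
          exact hpair x hx q hq (Ne.symm hqx) hfq.symm z h1 h3
        · rintro (h | h)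
          · rw [h]; exact ⟨hx, rfl⟩
          · rw [h]; exact ⟨hq, hfq⟩
      rw [hfil, Finset.sum_pair (Ne.symm hqx), Finset.card_pair (Ne.symm hqx)]
      by_cases hS : f x ∈ Sur
      · rw [if_pos hS]
        rw [hSur, Finset.mem_filter] at hS
        obtain ⟨-, p, hp, q', hq', hpq', h1, h3, h4, h5⟩ := hS
        have hTT : Tc x ∧ Tc q := by
          have e1 := hpair x hx q hq (Ne.symm hqx) hfq.symm p hp h1
          have e2 := hpair x hx q hq (Ne.symm hqx) hfq.symm q' hq' h3
          rcases e1 with e1 | e1 <;> rcases e2 with e2 | e2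
          · exact absurd (e1.trans e2.symm) hpq'
          · rw [e1] at h4; rw [e2] at h5; exact ⟨h4, h5⟩
          · rw [e1] at h4; rw [e2] at h5; exact ⟨h5, h4⟩
          · exact absurd (e1.trans e2.symm) hpq'
        have w1 : w x = 1 := by
          rw [hw]; dsimp only
          rw [if_neg hs, if_neg]
          rintro ⟨-, h6⟩
          exact h6 q hq hqx hfq hTT.2
        have w2 : w q = 1 := by
          rw [hw]; dsimp only
          rw [if_neg hqs, if_neg]
          rintro ⟨-, h6⟩
          exact h6 x hx (Ne.symm hqx) hfq.symm hTT.1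
        omega
      · rw [if_neg hS]
        have : 1 ≤ w x + w q := by
          by_contra hcon
          have hx0' : w x = 0 := by omega
          have hq0' : w q = 0 := by omega
          rw [hw] at hx0' hq0'; dsimp only at hx0' hq0'
          rw [if_neg hs] at hx0'
          rw [if_neg hqs] at hq0'
          split_ifs at hx0' hq0' with h6 h7
          exact h6.2 q hq hqx hfq h7.1
        omega
  have hsum := Finset.sum_le_sum hval
  rw [Finset.sum_add_distrib, Finset.sum_add_distrib, Finset.sum_add_distrib] at hsum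
  have s1 : ∑ y ∈ C, ∑ x ∈ D.filter (fun x => f x = y), w x = ∑ x ∈ D, w x :=
    Finset.sum_fiberwise_of_maps_to (fun x hx => Finset.mem_image_of_mem f hx) w
  have s2 : ∑ y ∈ C, (D.filter (fun x => f x = y)).card = D.card :=
    (Finset.card_eq_sum_card_fiberwise (fun x hx => Finset.mem_image_of_mem f hx)).symm
  have s3 : ∑ y ∈ C, (if y ∈ Sur then 1 else 0) = Sur.card := by
    rw [← Finset.sum_filter, Finset.sum_const, smul_eq_mul, mul_one]
    congr 1
    ext y
    rw [Finset.mem_filter]
    exact ⟨fun h => h.2, fun h => ⟨(Finset.mem_filter.1 h).1, h⟩⟩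
  have s4 : ∑ y ∈ C, (if y ∈ U1.image f then 1 else 0) ≤ (U1.image f).card := by
    rw [← Finset.sum_filter, Finset.sum_const, smul_eq_mul, mul_one]
    apply Finset.card_le_card
    intro y hy
    exact (Finset.mem_filter.1 hy).2
  rw [s1, s2, s3, Finset.sum_const, smul_eq_mul] at hsum
  have hfin : 3 * C.card ≤ (∑ x ∈ D, w x) + D.card := by
    have := hUS
    omega
  refine ⟨C, ?_, ?_, Finset.card_image_le, ?_⟩
  · intro y hy
    obtain ⟨x, hx, rfl⟩ := Finset.mem_image.1 hy
    exact (hf x hx).1
  · intro u hu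
    exact ⟨f u, Finset.mem_image_of_mem f hu, (hf u hu).2⟩
  · have := Nat.mul_le_mul_left m hfin
    rw [mul_add] at this
    nlinarith [hupper, this]

/-- the case in which all traces have at most three elements -/
theorem smallCase (m : ℕ) (hm : 1 ≤ m) : ∀ (n : ℕ) (D : Finset α), D.card = n →
    (∀ u ∈ D, m ≤ (Y.filter (fun y => u ∈ A y)).card) →
    (∀ y ∈ Y, (D.filter (fun u => u ∈ A y)).card ≤ 3) →
    ∃ C ⊆ Y, (∀ u ∈ D, ∃ y ∈ C, u ∈ A y) ∧ C.card ≤ D.card ∧
      3 * m * C.card ≤ 2 * Y.card + m * D.card := by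
  intro n
  induction n using Nat.strong_induction_on with
  | _ n ih =>
    intro D hn hD h3
    by_cases h2 : ∀ y ∈ Y, (D.filter (fun u => u ∈ A y)).card ≤ 2
    · exact graphCase A Y m hm D hD h2
    · push Not at h2
      obtain ⟨y, hy, hy2⟩ := h2
      have hy3 : (D.filter (fun u => u ∈ A y)).card = 3 := by
        have := h3 y hy
        omega
      have hsplit : (D.filter (fun u => u ∈ A y)).card + (D.filter (fun u => ¬ u ∈ A y)).card =
          D.card := Finset.card_filter_add_card_filter_not _
      set D' := D.filter (fun u => ¬ u ∈ A y) with hD'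
      have hsub : D' ⊆ D := Finset.filter_subset _ _
      obtain ⟨C, hC, hcov, hc1, hc2⟩ := ih D'.card (by omega) D' rfl
        (fun u hu => hD u (hsub hu))
        (fun z hz => le_trans (Finset.card_le_card (Finset.filter_subset_filter _ hsub)) (h3 z hz))
      refine ⟨insert y C, Finset.insert_subset hy hC, ?_, ?_, ?_⟩
      · intro u hu
        by_cases huy : u ∈ A y
        · exact ⟨y, Finset.mem_insert_self _ _, huy⟩
        · obtain ⟨z, hz, hz2⟩ := hcov u (Finset.mem_filter.2 ⟨hu, huy⟩)
          exact ⟨z, Finset.mem_insert_of_mem hz, hz2⟩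
      · have := Finset.card_insert_le y C
        omega
      · have h4 := Finset.card_insert_le y C
        have h5 : D.card = D'.card + 3 := by omega
        rw [h5]
        nlinarith [Nat.mul_le_mul_left (3 * m) h4, hc2]

/-- the covering lemma -/
theorem cover (m : ℕ) (hm : 1 ≤ m) : ∀ (n : ℕ) (D : Finset α), D.card = n →
    (∀ u ∈ D, m ≤ (Y.filter (fun y => u ∈ A y)).card) →
    ∃ C ⊆ Y, (∀ u ∈ D, ∃ y ∈ C, u ∈ A y) ∧ C.card ^ 2 * m ≤ D.card * Y.card := by
  intro n
  induction n using Nat.strong_induction_on with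
  | _ n ih =>
    intro D hn hD
    have hdc : m * D.card ≤ ∑ y ∈ Y, (D.filter (fun u => u ∈ A y)).card := by
      have h := dc A Y D (fun _ => 1)
      simp only [one_mul, Finset.sum_const, smul_eq_mul, mul_one] at h
      rw [← h]
      calc m * D.card = ∑ _u ∈ D, m := by rw [Finset.sum_const, smul_eq_mul, mul_comm]
        _ ≤ _ := Finset.sum_le_sum hD
    by_cases h3 : ∀ y ∈ Y, (D.filter (fun u => u ∈ A y)).card ≤ 3
    · obtain ⟨C, hC, hcov, hc1, hc2⟩ := smallCase A Y m hm D.card D rfl hD h3
      refine ⟨C, hC, hcov, ?_⟩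
      have h4 : m * D.card ≤ 3 * Y.card := by
        refine le_trans hdc (le_trans (Finset.sum_le_sum h3) ?_)
        rw [Finset.sum_const, smul_eq_mul, mul_comm]
      generalize C.card = r at *
      generalize D.card = d at *
      generalize Y.card = M at *
      rcases Nat.lt_or_ge M (m * d) with hM | hM
      · have e1 : (3 * m * r) ^ 2 ≤ (2 * M + m * d) ^ 2 := Nat.pow_le_pow_left hc2 2
        have e2 : (2 * M + m * d) ^ 2 ≤ 9 * (m * d * M) := by
          zify at hM h4 ⊢
          nlinarith [mul_nonneg (show (0 : ℤ) ≤ 4 * M - m * d by nlinarith)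
            (show (0 : ℤ) ≤ m * d - M by linarith)]
        have e3 : 9 * m * (r ^ 2 * m) ≤ 9 * m * (d * M) := by
          calc 9 * m * (r ^ 2 * m) = (3 * m * r) ^ 2 := by ring
            _ ≤ 9 * (m * d * M) := le_trans e1 e2
            _ = 9 * m * (d * M) := by ring
        exact Nat.le_of_mul_le_mul_left e3 (by omega)
      · calc r ^ 2 * m ≤ d ^ 2 * m := Nat.mul_le_mul_right _ (Nat.pow_le_pow_left hc1 2)
          _ = d * (m * d) := by ring
          _ ≤ d * M := Nat.mul_le_mul_left _ hM
    · push Not at h3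
      obtain ⟨y0, hy0, hy03⟩ := h3
      obtain ⟨y, hy, hmax⟩ := Finset.exists_max_image Y
        (fun y => (D.filter (fun u => u ∈ A y)).card) ⟨y0, hy0⟩
      have hs4 : 4 ≤ (D.filter (fun u => u ∈ A y)).card := by
        have := hmax y0 hy0
        omega
      have hsM : m * D.card ≤ (D.filter (fun u => u ∈ A y)).card * Y.card := by
        refine le_trans hdc (le_trans (Finset.sum_le_sum hmax) ?_)
        rw [Finset.sum_const, smul_eq_mul, mul_comm]
      have hsplit : (D.filter (fun u => u ∈ A y)).card + (D.filter (fun u => ¬ u ∈ A y)).card =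
          D.card := Finset.card_filter_add_card_filter_not _
      set D' := D.filter (fun u => ¬ u ∈ A y) with hD'
      have hsub : D' ⊆ D := Finset.filter_subset _ _
      obtain ⟨C, hC, hcov, hc⟩ := ih D'.card (by omega) D' rfl (fun u hu => hD u (hsub hu))
      refine ⟨insert y C, Finset.insert_subset hy hC, ?_, ?_⟩
      · intro u hu
        by_cases huy : u ∈ A y
        · exact ⟨y, Finset.mem_insert_self _ _, huy⟩
        · obtain ⟨z, hz, hz2⟩ := hcov u (Finset.mem_filter.2 ⟨hu, huy⟩)
          exact ⟨z, Finset.mem_insert_of_mem hz, hz2⟩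
      · have h4 := Finset.card_insert_le y C
        generalize (insert y C).card = r1 at *
        generalize C.card = r at *
        generalize (D.filter (fun u => u ∈ A y)).card = t at *
        generalize D'.card = d' at *
        generalize Y.card = M at *
        rw [← hsplit] at hsM ⊢
        refine le_trans (Nat.mul_le_mul_right m (Nat.pow_le_pow_left h4 2)) ?_
        -- `2 r m + m ≤ t M`
        have key : 2 * r * m + m ≤ t * M := by
          by_contra hcon
          push Not at hcon
          have f1 : m ≤ t * M := by nlinarith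
          zify at *
          have f2 : (t * M - m) ^ 2 < (2 * r * m : ℤ) ^ 2 :=
            pow_lt_pow_left₀ (by linarith) (by linarith) (by norm_num)
          nlinarith [mul_le_mul_of_nonneg_left hc (show (0 : ℤ) ≤ 4 * m by positivity),
            mul_le_mul_of_nonneg_left hsM (show (0 : ℤ) ≤ t * M by positivity),
            mul_nonneg (mul_nonneg (show (0 : ℤ) ≤ t - 4 by linarith)
              (show (0 : ℤ) ≤ M by positivity)) (show (0 : ℤ) ≤ m * (t + d') by positivity)]
        nlinarith [key, hc]

end cover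

end Pool.Agent.H62.WN
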